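import Mathlib
import Pool.Agent.H67PCF.Defs
import Pool.Agent.H67PCF.Chain
import Pool.Agent.H67PCF.Upper
import Pool.Agent.H67PCF.Lower

/-!
The law of the final configuration of percolation with constant freezing is not monotone in the
freezing rate.
-/

set_option autoImplicit false

namespace Pool.Agent.Results.MP_959d67_pr.NotMonotone

open Pool.Agent.H67PCF

variable {L D : ℕ}

/-- The event that one of the extra edges is open. -/
def EA (L D : ℕ) : Set (Finset (Sym2 (W L D))) := {ω | ∃ b, pe b ∈ ω}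

theorem inc_EA : Increasing (EA L D) := by
  rintro ω ω' h ⟨b, hb⟩
  exact ⟨b, h hb⟩

open Classical in
theorem final_value {h : ℝ} {M : St (W L D) → ℝ} {s : St (W L D)} (hs : Inv (Gr L D) s)
    (hw : s.wc = ∅) : FF h M s = if anyo s then 0 else 1 := by
  by_cases ho : anyo s
  · rw [FF_any ho, if_pos ho]
  · rw [if_neg ho, FF_none ho]
    intro b hb
    have h1 := cl_mem_wc hs hb.2.1
    rw [hw] at h1
    exact absurd h1 (Finset.notMem_empty _)

theorem rem_init (V : Type) [Fintype V] [DecidableEq V] :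
    rem (⟨∅, ∅⟩ : St V) ≤ Fintype.card V + Fintype.card (Sym2 V) := by
  unfold rem
  simp only [Finset.card_empty, Nat.sub_zero]
  refine Nat.add_le_add le_rfl (le_of_eq ?_)
  exact Fintype.card_congr (Equiv.refl _)

theorem reduce_upper {α h : ℝ} (hh : (1 + 2 * α) * h = 2 * α) {M : St (W L D) → ℝ}
    (hM : ∀ s : St (W L D), Inv (Gr L D) s → ¬ anyo s → (∀ b, alive s b) →
      gen α (FF h M) s ≤ 0) (s : St (W L D)) (hs : Inv (Gr L D) s) :
    gen α (FF h M) s ≤ 0 := by
  by_cases ho : anyo s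
  · exact (gen_open ho).le
  · by_cases h0 : alive s false
    · by_cases h1 : alive s true
      · refine hM s hs ho fun b => ?_
        cases b
        · exact h0
        · exact h1
      · exact (gen_one hh hs ho false h0 h1).le
    · by_cases h1 : alive s true
      · exact (gen_one hh hs ho true h1 h0).le
      · refine (gen_none ho fun b => ?_).le
        cases b
        · exact h0
        · exact h1

theorem reduce_lower {α h : ℝ} (hh : (1 + 2 * α) * h = 2 * α) {M : St (W L D) → ℝ}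
    (hM : ∀ s : St (W L D), Inv (Gr L D) s → ¬ anyo s → (∀ b, alive s b) →
      0 ≤ gen α (FF h M) s) (s : St (W L D)) (hs : Inv (Gr L D) s) :
    0 ≤ gen α (FF h M) s := by
  by_cases ho : anyo s
  · exact (gen_open ho).ge
  · by_cases h0 : alive s false
    · by_cases h1 : alive s true
      · refine hM s hs ho fun b => ?_
        cases b
        · exact h0
        · exact h1
      · exact (gen_one hh hs ho false h0 h1).ge
    · by_cases h1 : alive s true
      · exact (gen_one hh hs ho true h1 h0).ge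
      · refine (gen_none ho fun b => ?_).ge
        cases b
        · exact h0
        · exact h1

theorem gen_neg (α : ℝ) (g : St (W L D) → ℝ) (s : St (W L D)) :
    ∑ e ∈ s.act (Gr L D), ((1 - g (s.opn e)) - (1 - g s)) +
      α * ∑ C ∈ s.wc, ((1 - g (s.frz C)) - (1 - g s)) = - gen α g s := by
  unfold gen
  have e1 : ∑ e ∈ s.act (Gr L D), ((1 - g (s.opn e)) - (1 - g s)) =
      -∑ e ∈ s.act (Gr L D), (g (s.opn e) - g s) := by
    rw [← Finset.sum_neg_distrib]
    exact Finset.sum_congr rfl fun _ _ => by ring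
  have e2 : ∑ C ∈ s.wc, ((1 - g (s.frz C)) - (1 - g s)) =
      -∑ C ∈ s.wc, (g (s.frz C) - g s) := by
    rw [← Finset.sum_neg_distrib]
    exact Finset.sum_congr rfl fun _ _ => by ring
  rw [e1, e2]
  ring

/-- The initial state. -/
def st0 (L D : ℕ) : St (W L D) := ⟨∅, ∅⟩

theorem st0_anyo : ¬ anyo (st0 L D) := by
  rintro ⟨b, hb⟩
  exact absurd hb (Finset.notMem_empty _)

theorem st0_alive (b : Bool) : alive (st0 L D) b :=
  ⟨Finset.notMem_empty _, Finset.notMem_empty _, Finset.notMem_empty _⟩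

theorem st0_wk : wk (st0 L D) := fun _ => Finset.notMem_empty _

theorem st0_conn (i : Fin L) : ¬ conn (st0 L D) i := by
  rintro ⟨d, hd, -⟩
  exact absurd hd (Finset.notMem_empty _)

theorem st0_kk (i : Fin L) : kk (st0 L D) i = 0 := by
  classical
  unfold kk
  rw [Finset.card_eq_zero, Finset.filter_eq_empty_iff]
  rintro d - ⟨b, hb, -⟩
  exact absurd hb (Finset.notMem_empty _)

theorem st0_ff (i : Fin L) : ff (st0 L D) i = 0 := by
  classical
  unfold ff
  rw [Finset.card_eq_zero, Finset.filter_eq_empty_iff]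
  intro d _
  exact Finset.notMem_empty _

theorem mu_ge {α h : ℝ} (hα : 0 < α) {M : St (W L D) → ℝ}
    (hM : ∀ s : St (W L D), Inv (Gr L D) s → gen α (FF h M) s ≤ 0) :
    1 - M (st0 L D) ≤ μ (Gr L D) α (EA L D) := by
  classical
  have h1 := le_prob (Gr L D) hα (EA L D) (fun s => 1 - FF h M s)
    (fun s hs _ hw => by
      show 1 - FF h M s ≤ _
      rw [final_value hs hw]
      by_cases ho : anyo s
      · have h2 : s.op ∈ EA L D := ho
        simp [ho, h2]
      · have h2 : s.op ∉ EA L D := ho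
        simp [ho, h2])
    (fun s hs => by
      have h2 := gen_neg α (FF h M) s
      have h3 := hM s hs
      linarith)
    (Fintype.card (W L D) + Fintype.card (Sym2 (W L D))) (st0 L D) (inv_init _) (rem_init _)
  have h2 : FF h M (st0 L D) = M (st0 L D) := FF_both st0_anyo st0_alive
  rw [h2] at h1
  refine h1.trans (le_of_eq ?_)
  unfold μ
  congr

theorem mu_le {α h : ℝ} (hα : 0 < α) {M : St (W L D) → ℝ}
    (hM : ∀ s : St (W L D), Inv (Gr L D) s → 0 ≤ gen α (FF h M) s) :
    μ (Gr L D) α (EA L D) ≤ 1 - M (st0 L D) := by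
  classical
  have h1 := prob_le (Gr L D) hα (EA L D) (fun s => 1 - FF h M s)
    (fun s hs _ hw => by
      show _ ≤ 1 - FF h M s
      rw [final_value hs hw]
      by_cases ho : anyo s
      · have h2 : s.op ∈ EA L D := ho
        simp [ho, h2]
      · have h2 : s.op ∉ EA L D := ho
        simp [ho, h2])
    (fun s hs => by
      have h2 := gen_neg α (FF h M) s
      have h3 := hM s hs
      linarith)
    (Fintype.card (W L D) + Fintype.card (Sym2 (W L D))) (st0 L D) (inv_init _) (rem_init _)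
  have h2 : FF h M (st0 L D) = M (st0 L D) := FF_both st0_anyo st0_alive
  rw [h2] at h1
  refine le_trans (le_of_eq ?_) h1
  unfold μ
  congr

/-- The upper bound for the probability that both extra edges remain closed. -/
theorem upper_bound {β σ : ℝ} (hβ : 0 < β) (hσ : 0 < σ) (hσ1 : 2 * D ≤ (σ - β) * (σ + 1)) :
    1 - ((2 * β / (1 + 2 * β)) ^ 2 +
      (β * (1 + 2 * (2 * β / (1 + 2 * β))) / (2 + 3 * β) - (2 * β / (1 + 2 * β)) ^ 2) *
        (1 - β / σ) ^ L) ≤ μ (Gr L D) β (EA L D) := by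
  classical
  set h : ℝ := 2 * β / (1 + 2 * β) with hh
  set h1 : ℝ := β * (1 + 2 * h) / (2 + 3 * β) with hh1
  have e1 : (1 + 2 * β) * h = 2 * β := by
    rw [hh]
    field_simp
  have e2 : (2 + 3 * β) * h1 = β + 2 * β * h := by
    rw [hh1]
    field_simp
  have hβσ : β ≤ σ := by
    by_contra hlt
    push Not at hlt
    have h3 : (σ - β) * (σ + 1) < 0 := mul_neg_of_neg_of_pos (by linarith) (by linarith)
    have h4 : (0 : ℝ) ≤ D := Nat.cast_nonneg _
    linarith
  have hδ : 0 ≤ h1 - h ^ 2 := by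
    have h3 : h1 - h ^ 2 = β / ((1 + 2 * β) ^ 2 * (2 + 3 * β)) := by
      rw [hh1, hh]
      field_simp
      ring
    rw [h3]
    positivity
  have hk : ∀ k : ℕ, (0 : ℝ) < k + σ := fun k => by positivity
  have hψ := @gen_upper L D β h h1 hβ e1 e2 (h1 - h ^ 2) rfl hδ (fun k => 1 - β / (k + σ))
    (fun k => by
      have : β / (k + σ) ≤ 1 := by
        rw [div_le_one (hk k)]
        have : (0 : ℝ) ≤ k := Nat.cast_nonneg _
        linarith
      show 0 ≤ 1 - β / (k + σ)
      linarith)
    (fun k => by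
      have : 0 ≤ β / (k + σ) := (div_pos hβ (hk k)).le
      show 1 - β / (k + σ) ≤ 1
      linarith)
    (fun k => by
      show 1 - β / (k + σ) ≤ 1 - β / ((k + 1 : ℕ) + σ)
      have : β / ((k + 1 : ℕ) + σ) ≤ β / (k + σ) := by
        apply div_le_div_of_nonneg_left hβ.le (hk k)
        push_cast
        linarith
      linarith)
    (fun k => by
      show k * (1 - (1 - β / (k + σ))) +
        2 * D * ((1 - β / ((k + 1 : ℕ) + σ)) - (1 - β / (k + σ))) ≤ β * (1 - β / (k + σ))
      push_cast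
      have hk1 : (0 : ℝ) < k + σ := hk k
      have hk2 : (0 : ℝ) < k + 1 + σ := by linarith
      have hk0 : (0 : ℝ) ≤ k := Nat.cast_nonneg _
      have h5 : 2 * (D : ℝ) ≤ (σ - β) * (k + 1 + σ) := by nlinarith
      have h6 : k * (1 - (1 - β / (k + σ))) +
        2 * D * ((1 - β / (k + 1 + σ)) - (1 - β / (k + σ))) - β * (1 - β / (k + σ)) =
        β * (2 * D - (σ - β) * (k + 1 + σ)) / ((k + σ) * (k + 1 + σ)) := by
        field_simp
        ring
      have h7 : β * (2 * D - (σ - β) * (k + 1 + σ)) / ((k + σ) * (k + 1 + σ)) ≤ 0 := by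
        apply div_nonpos_of_nonpos_of_nonneg
        · exact mul_nonpos_of_nonneg_of_nonpos hβ.le (by linarith)
        · positivity
      linarith)
  have h3 := mu_ge hβ (reduce_upper e1 (fun s hs ho ha => hψ hs ho ha))
  have h4 : UU h (h1 - h ^ 2) (fun k : ℕ => 1 - β / (k + σ)) (st0 L D) =
      h ^ 2 + (h1 - h ^ 2) * (1 - β / σ) ^ L := by
    rw [UU_wk st0_wk]
    congr 2
    have h5 : ∀ i : Fin L, fac (fun k : ℕ => 1 - β / (k + σ)) (st0 L D) i = 1 - β / σ := by
      intro i
      rw [fac_not (st0_conn i), st0_kk]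
      simp
    rw [Finset.prod_congr rfl (fun i _ => h5 i), Finset.prod_const, Finset.card_univ,
      Fintype.card_fin]
  rw [h4] at h3
  exact h3

/-- The lower bound for the probability that both extra edges remain closed. -/
theorem lower_bound {α : ℝ} (hα : 0 < α) (hL : 0 < L)
    {q p : ℝ} (hq : 1 ≤ q) (hp : q * (1 - p) = 1) {K fm : ℕ} {r ρ : ℝ} (hr : 0 ≤ r)
    (hK : r + α * D ≤ K) (hD : r + α * D ≤ 2 * ((D : ℝ) - K - fm) * p)
    (hρ : 0 ≤ ρ) (hρr : 2 + α * (L + 5) ≤ ρ * r) :
    μ (Gr L D) α (EA L D) ≤ 1 - α / (2 + 3 * α) *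
      (1 - (ρ * (1 + Real.log (L * q ^ K)) + 1 / 2 ^ fm * (L * q ^ K))) := by
  classical
  set h : ℝ := 2 * α / (1 + 2 * α) with hh
  set h1 : ℝ := α * (1 + 2 * h) / (2 + 3 * α) with hh1
  have h0 : 0 ≤ h := by positivity
  have h10 : 0 ≤ h1 := by positivity
  have e1 : (1 + 2 * α) * h = 2 * α := by
    rw [hh]
    field_simp
  have e2 : (2 + 3 * α) * h1 = α + 2 * α * h := by
    rw [hh1]
    field_simp
  have hg := @gen_lower L D α h h1 hα h0 e2 h10 q p hq hp K fm r ρ hr hK hD hρ hρr
  have h3 := mu_le hα (reduce_lower e1 (fun s hs ho ha => hg hs ho ha))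
  refine h3.trans ?_
  have hS : SS q K (st0 L D) = L * q ^ K := by
    unfold SS
    have h5 : ∀ i : Fin L, ee q K (st0 L D) i = q ^ K := by
      intro i
      rw [ee_not (st0_conn i), st0_kk, st0_ff, Nat.sub_zero, pow_zero, mul_one]
    rw [Finset.sum_congr rfl (fun i _ => h5 i), Finset.sum_const, Finset.card_univ,
      Fintype.card_fin, nsmul_eq_mul]
  have hS0 : (0 : ℝ) < L * q ^ K := by positivity
  have hY : YY q K ρ (1 / 2 ^ fm) (st0 L D) =
      ρ * (1 + Real.log (L * q ^ K)) + 1 / 2 ^ fm * (L * q ^ K) := by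
    unfold YY
    rw [hS]
    unfold ell
    rw [if_neg hS0.ne']
  have hnc : ¬ ∀ i, conn (st0 L D) i := fun h => st0_conn ⟨0, hL⟩ (h _)
  have hW : WW h1 q K ρ (1 / 2 ^ fm) (st0 L D) =
      h1 * max 0 (1 - YY q K ρ (1 / 2 ^ fm) (st0 L D)) := by
    unfold WW
    rw [if_neg hnc, if_pos st0_wk]
  rw [hW, hY]
  have h6 : α / (2 + 3 * α) ≤ h1 := by
    rw [hh1]
    apply div_le_div_of_nonneg_right _ (by positivity)
    nlinarith
  have h7 : α / (2 + 3 * α) *
      (1 - (ρ * (1 + Real.log (L * q ^ K)) + 1 / 2 ^ fm * (L * q ^ K))) ≤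
      h1 * max 0 (1 - (ρ * (1 + Real.log (L * q ^ K)) + 1 / 2 ^ fm * (L * q ^ K))) := by
    refine (mul_le_mul_of_nonneg_left (le_max_right 0 _) (by positivity)).trans ?_
    exact mul_le_mul_of_nonneg_right h6 (le_max_left _ _)
  linarith

theorem compare {L D : ℕ} (hL : L = 2000000000) (hD : D = 20000) :
    μ (Gr L D) (1 / 10 ^ 10) (EA L D) < μ (Gr L D) (1 / 10 ^ 6) (EA L D) := by
  have hLr : (L : ℝ) = 2000000000 := by rw [hL]; norm_num
  have hDr : (D : ℝ) = 20000 := by rw [hD]; norm_num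
  have h1 := @upper_bound L D (1 / 10 ^ 6) 200 (by norm_num) (by norm_num)
    (by rw [hDr]; norm_num)
  have h2 := @lower_bound L D (1 / 10 ^ 10) (by norm_num) (by rw [hL]; norm_num) (200 / 199)
    (1 / 200) (by norm_num) (by norm_num) 200 100 196 (12 / 1000) (by norm_num)
    (by rw [hDr]; norm_num) (by rw [hDr]; norm_num) (by norm_num) (by rw [hLr]; norm_num)
  have e1 : (1 - (1 / 10 ^ 6 : ℝ) / 200) ^ L ≤ 1 / 20000 := by
    have h3 : (1 - (1 / 10 ^ 6 : ℝ) / 200) ≤ Real.exp (-(1 / 200000000)) := by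
      have := Real.add_one_le_exp (-(1 / 200000000) : ℝ)
      norm_num at this ⊢
      linarith
    have h4 : (1 - (1 / 10 ^ 6 : ℝ) / 200) ^ L ≤ Real.exp (-(1 / 200000000)) ^ L :=
      pow_le_pow_left₀ (by norm_num) h3 L
    rw [← Real.exp_nat_mul, hLr] at h4
    refine h4.trans ?_
    have h5 : (2000000000 : ℝ) * -(1 / 200000000) = -10 := by norm_num
    rw [h5, Real.exp_neg]
    have h6 : (27 / 10 : ℝ) ≤ Real.exp 1 := by
      have := Real.exp_one_gt_d9
      linarith
    have h7 : Real.exp 10 = Real.exp 1 ^ 10 := by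
      rw [← Real.exp_nat_mul]
      norm_num
    have h8 : (20000 : ℝ) ≤ Real.exp 10 := by
      rw [h7]
      refine le_trans ?_ (pow_le_pow_left₀ (by norm_num) h6 10)
      norm_num
    rw [one_div]
    exact inv_anti₀ (by norm_num) h8
  have e2 : Real.log (L * (200 / 199 : ℝ) ^ 200) ≤ 23 := by
    have h3 : (L : ℝ) * (200 / 199 : ℝ) ^ 200 ≤ 2 ^ 33 := by
      rw [hLr]
      norm_num
    have h4 : (0 : ℝ) < L * (200 / 199 : ℝ) ^ 200 := by
      rw [hLr]
      positivity
    have h5 := Real.log_le_log h4 h3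
    rw [Real.log_pow] at h5
    have h6 := Real.log_two_lt_d9
    push_cast at h5
    linarith
  have e3 : (1 / 2 ^ 100 : ℝ) * (L * (200 / 199 : ℝ) ^ 200) ≤ 1 / 1000 := by
    have h3 : (L : ℝ) * (200 / 199 : ℝ) ^ 200 ≤ 2 ^ 33 := by
      rw [hLr]
      norm_num
    refine (mul_le_mul_of_nonneg_left h3 (by positivity)).trans ?_
    norm_num
  have e4 : (0 : ℝ) ≤ (1 - (1 / 10 ^ 6 : ℝ) / 200) ^ L := pow_nonneg (by norm_num) _
  set x : ℝ := (1 - (1 / 10 ^ 6 : ℝ) / 200) ^ L with hx
  set y : ℝ := Real.log (L * (200 / 199 : ℝ) ^ 200) with hy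
  set z : ℝ := (1 / 2 ^ 100 : ℝ) * (L * (200 / 199 : ℝ) ^ 200) with hz
  norm_num at h1 h2
  nlinarith

/-- There are a finite simple graph `G`, freezing rates `0 < α < β` and an increasing event `A` such
that the final configuration belongs to `A` with a greater probability for the rate `β`. -/
theorem result : ∃ (V : Type) (_ : Fintype V) (G : SimpleGraph V) (α β : ℝ)
    (A : Set (Finset (Sym2 V))), 0 < α ∧ α < β ∧ Increasing A ∧ μ G α A < μ G β A :=
  ⟨W 2000000000 20000, inferInstance, Gr _ _, 1 / 10 ^ 10, 1 / 10 ^ 6, EA _ _, by norm_num,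
    by norm_num, inc_EA, compare rfl rfl⟩

end Pool.Agent.Results.MP_959d67_pr.NotMonotone
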